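import Pool.Agent.Helper70.SN.Exist

/-!
MP_7819b7_lc: the implication of Q1 for `λ = ℵ₁` is equivalent, in ZFC, to
`d = ℵ₁ → add(SN) = ℵ₁`. So it fails in every model of `d = ℵ₁ < add(SN)`.
-/

namespace Pool.Agent.Results.MP_7819b7_lc.AlephOneCase

open TukeySN Cardinal

/-- (1) The implication of Q1 for `λ = ℵ₁` and all `S` holds if and only if `d = ℵ₁` implies
`add(SN) = ℵ₁`. (2) There is an `S` as in Q1 for `λ = ℵ₁` if and only if `d = ℵ₁`, and then for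
every such `S` the conclusion of Q1 holds if and only if `add(SN) = ℵ₁`. (3) For every infinite
`κ`, the conclusion `D_κ^κ ≼_T SN` implies `add(SN) ≤ κ`. -/
theorem result :
    ((∀ (S : Type) [PartialOrder S], Hyp ℵ₁ S → Concl ℵ₁) ↔ (domNumber = ℵ₁ → addSN = ℵ₁)) ∧
    ((∃ (S : Type) (_ : PartialOrder S), Hyp ℵ₁ S) ↔ domNumber = ℵ₁) ∧
    (∀ (S : Type) [PartialOrder S], Hyp ℵ₁ S → (Concl ℵ₁ ↔ addSN = ℵ₁)) ∧
    (∀ κ : Cardinal.{0}, ℵ₀ ≤ κ → Concl κ → addSN ≤ κ) := by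
  refine ⟨⟨fun h hdom => ?_, fun h S _ hS => ?_⟩, ⟨?_, exists_hyp⟩, fun S _ hS => concl_iff hS,
    fun κ hκ h => addSN_le_of_concl hκ h⟩
  · obtain ⟨S, hS, hyp⟩ := exists_hyp hdom
    exact (concl_iff hyp).1 (h S hyp)
  · exact (concl_iff hS).2 (h (domNumber_of_hyp hS))
  · rintro ⟨S, hS, hyp⟩
    exact domNumber_of_hyp hyp

end Pool.Agent.Results.MP_7819b7_lc.AlephOneCase
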